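import Pool.Agent.Helper91.GU.StH

/-!
# Project GU, module H3 (finitely generated graded subalgebras)
-/

set_option autoImplicit false

namespace Pool.Agent.Helper28.GU

universe u

open Pool.Agent.Helper91.GU MvPolynomial

/-- a homogeneous component of a homogeneous component is that component or zero -/
theorem comp_comp {R : Type u} [CommRing R] {n : ℕ} (f : MvPolynomial (Fin n) R) (i j : ℕ) :
    homogeneousComponent i (homogeneousComponent j f) =
      if i = j then homogeneousComponent j f else 0 := by
  rw [homogeneousComponent_of_mem (homogeneousComponent_mem j f)]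

theorem comp_mul_comp {R : Type u} [CommRing R] {n : ℕ} (f g : MvPolynomial (Fin n) R)
    (i j k : ℕ) :
    homogeneousComponent i (homogeneousComponent j f * homogeneousComponent k g) =
      if i = j + k then homogeneousComponent j f * homogeneousComponent k g else 0 := by
  have h : homogeneousComponent j f * homogeneousComponent k g ∈
      homogeneousSubmodule (Fin n) R (j + k) :=
    (homogeneousComponent_isHomogeneous j f).mul (homogeneousComponent_isHomogeneous k g)
  rw [homogeneousComponent_of_mem h]

/-- the elements all of whose components lie in `B` -/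
def compSub {R : Type u} [CommRing R] {n : ℕ} (B : Subalgebra R (MvPolynomial (Fin n) R)) :
    Subalgebra R (MvPolynomial (Fin n) R) where
  carrier := {f | ∀ i : ℕ, homogeneousComponent i f ∈ B}
  mul_mem' := by
    intro f g hf hg i
    have e : f * g = ∑ j ∈ Finset.range (f.totalDegree + 1),
        ∑ k ∈ Finset.range (g.totalDegree + 1),
          homogeneousComponent j f * homogeneousComponent k g := by
      rw [← Finset.sum_mul_sum, sum_homogeneousComponent, sum_homogeneousComponent]
    rw [e, map_sum]
    refine Subalgebra.sum_mem _ fun j _ => ?_
    rw [map_sum]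
    refine Subalgebra.sum_mem _ fun k _ => ?_
    rw [comp_mul_comp]
    split_ifs with h
    · exact B.mul_mem (hf j) (hg k)
    · exact B.zero_mem
  add_mem' := by
    intro f g hf hg i
    rw [map_add]
    exact B.add_mem (hf i) (hg i)
  algebraMap_mem' := by
    intro r i
    have h : algebraMap R (MvPolynomial (Fin n) R) r ∈ homogeneousSubmodule (Fin n) R 0 :=
      isHomogeneous_C (Fin n) r
    rw [homogeneousComponent_of_mem h]
    split_ifs with h
    · exact B.algebraMap_mem r
    · exact B.zero_mem

theorem hH3 : StH3.{u} := by
  intro R _ n A hA S hS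
  classical
  let G : Finset (MvPolynomial (Fin n) R) := S.biUnion fun f =>
    (Finset.range (f.totalDegree + 1)).image fun i => homogeneousComponent i f
  have hG : ∀ g ∈ G, ∃ f ∈ S, ∃ j ∈ Finset.range (f.totalDegree + 1),
      homogeneousComponent j f = g := by
    intro g hg
    simpa only [G, Finset.mem_biUnion, Finset.mem_image] using hg
  refine ⟨Algebra.adjoin R (G : Set (MvPolynomial (Fin n) R)), ?_, ⟨G, rfl⟩, ?_, ?_⟩
  · refine Algebra.adjoin_le ?_
    intro g hg
    obtain ⟨f, hf, j, _, rfl⟩ := hG g hg
    exact hA f (hS f hf) j
  · have hle : Algebra.adjoin R (G : Set (MvPolynomial (Fin n) R)) ≤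
        compSub (Algebra.adjoin R (G : Set (MvPolynomial (Fin n) R))) := by
      refine Algebra.adjoin_le ?_
      intro g hg i
      obtain ⟨f, hf, j, hj, rfl⟩ := hG g hg
      rw [comp_comp]
      split_ifs with h
      · exact Algebra.subset_adjoin hg
      · exact Subalgebra.zero_mem _
    intro f hf i
    exact hle hf i
  · intro f hf
    rw [← sum_homogeneousComponent f]
    refine Subalgebra.sum_mem _ fun j hj => ?_
    refine Algebra.subset_adjoin ?_
    show homogeneousComponent j f ∈ G
    simp only [G, Finset.mem_biUnion, Finset.mem_image]
    exact ⟨f, hf, j, hj, rfl⟩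

end Pool.Agent.Helper28.GU
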