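import Pool.Agent.Helper96.GU.St

set_option autoImplicit false

namespace Pool.Agent.Helper28.GU

open Pool.Agent.Helper96.UT hiding StTOP TopV TopE tht Bd VC EC
open Pool.Agent.Helper96.GU

private theorem InE_univ_EXI {α Ω : Type} [MulAction (FreeGroup α) Ω] (v : Ω)
    (w : List (α × Bool)) : InE (Set.univ : Set (Ω × α)) v w := by
  induction w generalizing v with
  | nil => trivial
  | cons x w ih => exact ⟨trivial, ih _⟩

theorem tEXI : StEXI := by
  intro α Z L _hs w hw
  classical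
  obtain ⟨S, hS⟩ := fin_EXZ Z.s hw
  set L₁ : Subgroup (FreeGroup α) := Subgroup.closure ((L : Set (FreeGroup α)) ∪
    (fun g => g * Z.s * g⁻¹) '' (S : Set (FreeGroup α))) with hL₁
  have hLL : ∀ g ∈ L, g ∈ L₁ := fun g hg => Subgroup.subset_closure (Or.inl hg)
  have hgen : ∀ g ∈ S, g * Z.s * g⁻¹ ∈ L₁ := fun g hg =>
    Subgroup.subset_closure (Or.inr ⟨g, by exact_mod_cast hg, rfl⟩)
  let v : FreeGroup α ⧸ L₁ := ((1 : FreeGroup α) : FreeGroup α ⧸ L₁)
  have hv : ∀ g h : FreeGroup α, act v g = act v h ↔ g * h⁻¹ ∈ L₁ := act_coset_eq_EXZ L₁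
  have hv1 : ∀ g ∈ L₁, act v g = v := by
    intro g hg
    have := (hv g 1).2 (by simpa using hg)
    rw [this, act_one]
  let C : Finset (FreeGroup α ⧸ L₁) := insert v (S.image fun g => act v g)
  have hC : ∀ u, u ∈ C ↔ u = v ∨ ∃ g ∈ S, act v g = u := by
    intro u
    simp only [C, Finset.mem_insert, Finset.mem_image]
  have hrot : ∀ g ∈ S, act v (g * Z.s) = act v g := by
    intro g hg
    rw [hv]
    exact hgen g hg
  refine ⟨FreeGroup α ⧸ L₁, inferInstance, v, C,
    { stab := fun h hh => hv1 h (hLL h hh)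
      mem := (hC v).2 (Or.inl rfl)
      cpx := { fix := ?_, sub := fun _ _ _ _ => trivial }
      nc := ?_
      hh := ?_ }⟩
  · intro u hu
    rcases (hC u).1 hu with rfl | ⟨g, hg, rfl⟩
    · exact hv1 _ (hLL _ _hs)
    · rw [← act_mul]
      exact hrot g hg
  · have hle : Subgroup.closure ((fun g => g * Z.s * g⁻¹) '' (S : Set (FreeGroup α))) ≤
        Nc Z Set.univ C v := by
      rw [Subgroup.closure_le]
      rintro _ ⟨g, hg, rfl⟩
      obtain ⟨p, rfl⟩ := rep_EXZ g
      refine Subgroup.subset_closure ⟨p, InE_univ_EXI v p, ?_, rfl⟩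
      exact (hC _).2 (Or.inr ⟨FreeGroup.mk p, by exact_mod_cast hg, rfl⟩)
    exact hle hS
  · intro φ hφ hφL x q _ hx
    have key : ∀ g, g ∈ L₁ → Sa φ v g = 0 := by
      intro g hg
      rw [hL₁] at hg
      induction hg using Subgroup.closure_induction with
      | mem z hz =>
        rcases hz with hz | ⟨g, hg, rfl⟩
        · exact hφL z hz
        · have hg' : g ∈ S := by exact_mod_cast hg
          have h1 : Sa φ (act v g) Z.s = 0 := hφ _ ((hC _).2 (Or.inr ⟨g, hg', rfl⟩))
          change Sa φ v (g * Z.s * g⁻¹) = 0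
          rw [Sa_mul, Sa_mul, hrot g hg', h1, Sa_inv]
          abel
      | one => exact Sa_one φ v
      | mul a b ha hb iha ihb =>
        have ha' : act v a = v := hv1 a ha
        rw [Sa_mul, iha, ha', ihb, add_zero]
      | inv a ha iha =>
        have ha' : act v a = v := hv1 a ha
        have h2 := Sa_inv φ v a
        rw [ha', iha, neg_zero] at h2
        exact h2
    obtain ⟨a, rfl⟩ := QuotientGroup.mk_surjective x
    have hy : ((a : FreeGroup α) : FreeGroup α ⧸ L₁) = act v a⁻¹ := by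
      rw [show act v a⁻¹ = _ from act_coset_EXZ L₁ a⁻¹, inv_inv]
    rw [hy] at hx ⊢
    rw [← act_mul] at hx
    have h3 := key _ ((hv _ _).1 hx)
    rw [Sa_mul, Sa_mul, hx, Sa_inv, Sa_mk] at h3
    have h4 : Sm φ (act v a⁻¹) q = Sa φ v a⁻¹ + Sm φ (act v a⁻¹) q + -Sa φ v a⁻¹ := by abel
    rw [h4, h3]

end Pool.Agent.Helper28.GU
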